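import Mathlib
import Pool.Agent.K9h18.AP.Rat
import Pool.Agent.W66.LU

set_option autoImplicit false

/-!
# Mersenne numbers perturbed by a random analytic function of `1 / p`: full Poisson statistics

The heuristic of Lenstra, Pomerance and Wagstaff predicts that the exponents of Mersenne primes are
distributed like a Poisson process with density `(e ^ γ / log 2) log p / p`; in particular the
proportion of the ratios of consecutive exponents that exceed `t` should be `t ^ (- e ^ γ / log 2)`.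

For a sequence `c` of real numbers in `(0, 1]` put `G z = Σ c_j z ^ j`.  For a prime `p` let
`W p` be the `p`-rough part (the product, with multiplicity, of the prime factors larger than `p`) of
`A p - ⌊2 ^ (e p) G (1 / p)⌋`, where `A p` and `e p` are given, with `A p ≤ 2 ^ p`,
`2 ^ (p - 2) + 3 * 2 ^ (e p) ≤ A p` and `(3 / 4 + η) p ≤ e p` for large `p`.  With `A p = 2 ^ p - 1` and
`G = 0` it is the Mersenne number `2 ^ p - 1`; with `A p = 2 ^ p - 1` and `e p = p - 3 - ⌊δ p⌋`, where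
`δ < 1/4`, the leading `⌊δ p⌋ + 2` binary digits of the integer are ones, as for `2 ^ p - 1`.

We prove that for almost every `G` (independent uniformly distributed coefficients) the exponents `p`
for which `W p` is prime have the full Poisson statistics predicted for the Mersenne exponents, for
all primes `p` (and for every set of primes of infinite weight).
-/

namespace Pool.Agent.Results.MP_9b2bac_nt.AnalyticPoisson

open Filter Topology MeasureTheory Asymptotics

/-- The product, with multiplicity, of the prime factors of `m` that are larger than `p`. -/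
def roughPart (p m : ℕ) : ℕ := (m.primeFactorsList.filter (fun r => p < r)).prod

/-- The `p`-rough part of `A p - ⌊2 ^ (e p) G (1 / p)⌋`, where `G z = Σ c_j z ^ j`. -/
noncomputable def W (e A : ℕ → ℕ) (c : ℕ → ℝ) (p : ℕ) : ℕ :=
  roughPart p (A p - ⌊2 ^ (e p) * ∑' j : ℕ, c j / (p : ℝ) ^ j⌋₊)

open Classical in
/-- The sum of `log p / p` over the primes `p ≤ n` in the set `S`. -/
noncomputable def V (S : Set ℕ) (n : ℕ) : ℝ :=
  ∑ p ∈ (Finset.range (n + 1)).filter (fun p => p.Prime ∧ p ∈ S), Real.log p / p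

/-- The number of the primes `p ≤ n` in `S` for which `W e A c p` is prime. -/
noncomputable def M (e A : ℕ → ℕ) (c : ℕ → ℝ) (S : Set ℕ) (n : ℕ) : ℕ :=
  Set.ncard {p : ℕ | p ≤ n ∧ p.Prime ∧ p ∈ S ∧ (W e A c p).Prime}

/-- The number of the primes `p` in `S` with `m L < V p ≤ (m + 1) L` for which `W e A c p` is
prime. -/
noncomputable def N (e A : ℕ → ℕ) (c : ℕ → ℝ) (S : Set ℕ) (L : ℝ) (m : ℕ) : ℕ :=
  Set.ncard {p : ℕ | p.Prime ∧ p ∈ S ∧ m * L < V S p ∧ V S p ≤ (m + 1) * L ∧ (W e A c p).Prime}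

/-- The `k`-th (from `k = 0`) prime `p` in `S` for which `W e A c p` is prime. -/
noncomputable def P (e A : ℕ → ℕ) (c : ℕ → ℝ) (S : Set ℕ) (k : ℕ) : ℕ :=
  Nat.nth (fun p => p.Prime ∧ p ∈ S ∧ (W e A c p).Prime) k

/-- The constant of the law. -/
noncomputable def κ : ℝ := Real.exp Real.eulerMascheroniConstant / Real.log 2

/-- The distribution of a sequence of independent random variables, uniform on `(0, 1]`. -/
noncomputable def μ : Measure (ℕ → ℝ) :=
  Measure.infinitePi fun _ : ℕ => (volume.restrict (Set.Ioc 0 1) : Measure ℝ)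

lemma V_eq (S : Set ℕ) (n : ℕ) : V S n = Pool.Agent.TH888.R.VS S n := by
  classical
  unfold V Pool.Agent.TH888.R.VS
  rw [Finset.sum_filter]
  refine Finset.sum_congr rfl fun p _ => ?_
  by_cases h : p.Prime ∧ p ∈ S
  · rw [if_pos h, if_pos ⟨h.2, h.1⟩]
    rfl
  · rw [if_neg h, if_neg fun h1 => h ⟨h1.2, h1.1⟩]

lemma W_mersenne (e : ℕ → ℕ) {p : ℕ} (hp : p.Prime) :
    W e (fun p => 2 ^ p - 1) (fun _ => 0) p = 2 ^ p - 1 := by
  have h1 : W e (fun p => 2 ^ p - 1) (fun _ => 0) p = Pool.Agent.H305R2.roughPart p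
      (2 ^ p - 1 - ⌊(2 : ℝ) ^ (e p) * ∑' j : ℕ, 0 / (p : ℝ) ^ j⌋₊) := rfl
  rw [h1]
  simp only [zero_div, tsum_zero, mul_zero, Nat.floor_zero, Nat.sub_zero]
  exact Pool.Agent.W66L.rough_mersenne hp

/-- the exponents, modified off the primes -/
def e' (e : ℕ → ℕ) (p : ℕ) : ℕ := if p.Prime then e p else p - 3

/-- the integers, modified off the primes -/
def A' (A : ℕ → ℕ) (p : ℕ) : ℕ := if p.Prime then A p else 2 ^ p

lemma md {η : ℝ} {e A : ℕ → ℕ} (hη : 0 < η) (he : ∀ p : ℕ, p.Prime → e p ≤ p)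
    (hA : ∃ p₀ : ℕ, ∀ p : ℕ, p₀ ≤ p → p.Prime →
      (3 / 4 + η) * p ≤ e p ∧ 2 ^ (p - 2) + 3 * 2 ^ (e p) ≤ A p ∧ A p ≤ 2 ^ p) :
    Pool.Agent.K9h18.AP.Md (min (η / 2) (1 / 16)) (e' e) (A' A) := by
  obtain ⟨p₀, hp₀⟩ := hA
  have h1 : min (η / 2) (1 / 16) ≤ η / 2 := min_le_left _ _
  have h2 : min (η / 2) (1 / 16) ≤ 1 / 16 := min_le_right _ _
  refine ⟨lt_min (by positivity) (by norm_num), by linarith, fun p => ?_, ⟨p₀ + 24, fun p hp => ?_⟩,
    ⟨p₀ + 24, fun p hp => ?_⟩, ⟨p₀, fun p hp => ?_⟩⟩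
  · unfold e'
    split_ifs with h
    · exact he p h
    · omega
  · have h24 : (24 : ℝ) ≤ p := by exact_mod_cast (by omega : 24 ≤ p)
    unfold e'
    split_ifs with h
    · refine le_trans ?_ (hp₀ p (by omega) h).1
      apply mul_le_mul_of_nonneg_right _ (by linarith)
      linarith
    · rw [Nat.cast_sub (by omega)]
      push_cast
      have : (3 / 4 + 2 * min (η / 2) (1 / 16)) * (p : ℝ) ≤ 7 / 8 * p :=
        mul_le_mul_of_nonneg_right (by linarith) (by linarith)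
      linarith
  · unfold e' A'
    split_ifs with h
    · exact (hp₀ p (by omega) h).2.1
    · obtain ⟨k, rfl⟩ := Nat.exists_eq_add_of_le (show 3 ≤ p by omega)
      have e1 : 3 + k - 2 = k + 1 := by omega
      have e2 : 3 + k - 3 = k := by omega
      rw [e1, e2, pow_succ, pow_add]
      have := Nat.one_le_two_pow (n := k)
      omega
  · unfold A'
    split_ifs with h
    · exact (hp₀ p (by omega) h).2.2
    · exact le_rfl

lemma W_eq {e A : ℕ → ℕ} {c : ℕ → ℝ} (hc : Pool.Agent.K9h18.AP.Bx c) {p : ℕ} (hp : p.Prime) :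
    W e A c p = Pool.Agent.H305R2.roughPart p (Pool.Agent.K9h18.AP.nn (e' e) (A' A) c p) := by
  unfold Pool.Agent.K9h18.AP.nn e' A'
  rw [if_pos hp, if_pos hp, Pool.Agent.K9h18.AP.yy_box hp.two_le hc]
  have h1 : ∑' j : ℕ, c j * (1 / (p : ℝ)) ^ j = ∑' j : ℕ, c j / (p : ℝ) ^ j :=
    tsum_congr fun j => by rw [one_div, inv_pow, div_eq_mul_inv]
  rw [h1]
  rfl

lemma Ev_eq {e A : ℕ → ℕ} {c : ℕ → ℝ} (hc : Pool.Agent.K9h18.AP.Bx c) (S : Set ℕ) (p : ℕ) :
    (p.Prime ∧ p ∈ S ∧ (W e A c p).Prime) ↔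
      Pool.Agent.K9h18.HS.Ev (Pool.Agent.K9h18.AP.nn (e' e) (A' A) c) S p := by
  unfold Pool.Agent.K9h18.HS.Ev
  refine and_congr_right fun hp => ?_
  rw [W_eq hc hp]

lemma P_eq {e A : ℕ → ℕ} {c : ℕ → ℝ} (hc : Pool.Agent.K9h18.AP.Bx c) (S : Set ℕ) (k : ℕ) :
    P e A c S k = Nat.nth (Pool.Agent.K9h18.HS.Ev (Pool.Agent.K9h18.AP.nn (e' e) (A' A) c) S) k := by
  unfold P
  congr 1
  ext p
  exact Ev_eq hc S p

lemma M_eq {e A : ℕ → ℕ} {c : ℕ → ℝ} (hc : Pool.Agent.K9h18.AP.Bx c) (S : Set ℕ) (n : ℕ) :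
    M e A c S n = Pool.Agent.TH888.R.cS S (Pool.Agent.K9h18.AP.nn (e' e) (A' A) c) n := by
  classical
  unfold M Pool.Agent.TH888.R.cS
  rw [← Set.ncard_coe_finset]
  congr 1
  ext p
  rw [Finset.coe_filter, Set.mem_ofPred_eq, Set.mem_ofPred_eq, Finset.mem_range, Nat.lt_succ_iff]
  exact and_congr_right fun _ => Ev_eq hc S p

lemma N_eq {e A : ℕ → ℕ} {c : ℕ → ℝ} (hc : Pool.Agent.K9h18.AP.Bx c) {S : Set ℕ}
    (hS : Tendsto (Pool.Agent.TH888.R.VS S) atTop atTop) (L : ℝ) (m : ℕ) :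
    N e A c S L m = Pool.Agent.K9h18.HS.Nw (Pool.Agent.K9h18.AP.nn (e' e) (A' A) c) S L m := by
  classical
  unfold N Pool.Agent.K9h18.HS.Nw
  rw [← Set.ncard_coe_finset]
  congr 1
  ext p
  rw [Finset.coe_filter, Set.mem_ofPred_eq, Set.mem_ofPred_eq, Pool.Agent.K9h18.AP.mem_wn' hS, V_eq]
  have h2 : ((m : ℝ) + 1) * L = m * L + L := by ring
  rw [h2]
  constructor
  · rintro ⟨h3, h4, h5, h6, h7⟩
    rw [W_eq hc h3] at h7
    exact ⟨⟨h3, h4, h5, h6⟩, h7⟩
  · rintro ⟨⟨h3, h4, h5, h6⟩, h7⟩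
    rw [← W_eq hc h3] at h7
    exact ⟨h3, h4, h5, h6, h7⟩

/-- With `A p = 2 ^ p - 1` and `G = 0` the values are the Mersenne numbers.  For almost every power
series `G`: for every set `S` of primes of infinite weight, on the scale of the weight, the numbers
of prime values in consecutive windows are asymptotically independent Poisson variables, the gaps are
exponentially distributed, and the counting function obeys the law with a square root error term;
for the set of all primes the proportion of the ratios of consecutive exponents larger than `t` is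
`t ^ (-κ)`. -/
theorem result :
    (∀ (e : ℕ → ℕ) (p : ℕ), p.Prime → W e (fun p => 2 ^ p - 1) (fun _ => 0) p = 2 ^ p - 1) ∧
    ∀ (η : ℝ) (e A : ℕ → ℕ), 0 < η → (∀ p : ℕ, p.Prime → e p ≤ p) →
      (∃ p₀ : ℕ, ∀ p : ℕ, p₀ ≤ p → p.Prime →
        (3 / 4 + η) * p ≤ e p ∧ 2 ^ (p - 2) + 3 * 2 ^ (e p) ≤ A p ∧ A p ≤ 2 ^ p) →
      (∀ S : Set ℕ, Tendsto (V S) atTop atTop →
        (∀ L : ℝ, 0 < L → ∀ᵐ c ∂μ, ∀ (r : ℕ) (j : ℕ → ℕ),
          Tendsto (fun K : ℕ => (Set.ncard {m : ℕ | m < K ∧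
            ∀ i ≤ r, N e A c S L (m + i) = j i} : ℝ) / K) atTop
            (𝓝 (∏ i ∈ Finset.range (r + 1),
              (Real.exp (-(κ * L)) * (κ * L) ^ (j i) / (j i).factorial)))) ∧
        (∀ᵐ c ∂μ,
          {p : ℕ | p.Prime ∧ p ∈ S ∧ (W e A c p).Prime}.Infinite ∧
          ((fun n : ℕ => (M e A c S n : ℝ) - κ * V S n) =O[atTop]
            fun n : ℕ => Real.sqrt (V S n) * (Real.log (V S n)) ^ 2) ∧
          ∀ y : ℝ, 0 < y →
          Tendsto (fun K : ℕ => (Set.ncard {k : ℕ | k < K ∧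
            y < V S (P e A c S (k + 1)) - V S (P e A c S k)} : ℝ) / K) atTop
            (𝓝 (Real.exp (-(κ * y)))))) ∧
      (∀ᵐ c ∂μ,
        ((fun n : ℕ => (M e A c Set.univ n : ℝ) - κ * Real.log n) =O[atTop]
          fun n : ℕ => Real.sqrt (Real.log n) * (Real.log (Real.log n)) ^ 2) ∧
        ∀ t : ℝ, 1 < t →
        Tendsto (fun K : ℕ => (Set.ncard {k : ℕ | k < K ∧
          t * (P e A c Set.univ k : ℝ) < P e A c Set.univ (k + 1)} : ℝ) / K) atTop
          (𝓝 (t ^ (-κ)))) := by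
  classical
  refine ⟨fun e p hp => W_mersenne e hp, fun η e A hη he hA => ?_⟩
  have hM := md hη he hA
  have hV : ∀ S, V S = Pool.Agent.TH888.R.VS S := fun S => funext fun n => V_eq S n
  have hκ : κ = Pool.Agent.K9h18.HS.kc := rfl
  have hμ : μ = Pool.Agent.K9h18.AP.muI := rfl
  have hbox : ∀ᵐ c ∂μ, Pool.Agent.K9h18.AP.Bx c := Pool.Agent.K9h18.AP.box_Bx
  refine ⟨fun S hS => ⟨fun L hL => ?_, ?_⟩, ?_⟩
  · rw [hV] at hS
    filter_upwards [hbox, Pool.Agent.K9h18.AP.lawA hM hS hL] with c hb hc r j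
    rw [hκ]
    refine (hc r j).congr fun K => ?_
    congr 2
    rw [← Set.ncard_coe_finset]
    congr 1
    ext m
    rw [Finset.coe_filter, Set.mem_ofPred_eq, Set.mem_ofPred_eq, Finset.mem_range]
    refine and_congr_right fun _ => ?_
    simp only [N_eq hb hS, Nat.lt_succ_iff]
  · rw [hV] at hS ⊢
    filter_upwards [hbox, Pool.Agent.K9h18.AP.gapA hM hS] with c hb hc
    obtain ⟨hpt, hgap⟩ := hc
    refine ⟨?_, ?_, fun y hy => ?_⟩
    · have h1 := hpt.inf Pool.Agent.K9h18.HS.kc_pos hS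
      have h2 : {p : ℕ | p.Prime ∧ p ∈ S ∧ (W e A c p).Prime} =
          {p : ℕ | p.Prime ∧ p ∈ S ∧ (Pool.Agent.H305R2.roughPart p
            (Pool.Agent.K9h18.AP.nn (e' e) (A' A) c p)).Prime} := by
        ext p
        exact Ev_eq hb S p
      rw [h2]
      exact h1
    · obtain ⟨B, hB, h⟩ := hpt.law hS
      simp only [M_eq hb]
      rw [hκ]
      exact Pool.Agent.K9h18.HS.bigO_setR hB hS h
    · rw [hκ]
      refine (hgap y hy).congr fun K => ?_
      congr 2
      rw [← Set.ncard_coe_finset]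
      congr 1
      ext k
      rw [Finset.coe_filter, Set.mem_ofPred_eq, Set.mem_ofPred_eq, Finset.mem_range, P_eq hb, P_eq hb]
  · have hS := Pool.Agent.TH888.R.VS_univ_tendsto
    filter_upwards [hbox, Pool.Agent.K9h18.AP.gapA hM hS] with c hb hc
    obtain ⟨hpt, hgap⟩ := hc
    refine ⟨?_, fun t ht => ?_⟩
    · obtain ⟨B, hB, h⟩ := hpt.law hS
      simp only [M_eq hb]
      rw [hκ]
      exact Pool.Agent.K9h18.HS.bigO_allR hB h
    · have hinf := hpt.inf Pool.Agent.K9h18.HS.kc_pos hS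
      have htop := (Nat.nth_strictMono (p := Pool.Agent.K9h18.HS.Ev
        (Pool.Agent.K9h18.AP.nn (e' e) (A' A) c) Set.univ) hinf).tendsto_atTop
      rw [hκ]
      refine (Pool.Agent.K9h18.AP.ratio_law htop hgap ht).congr fun K => ?_
      congr 2
      rw [← Set.ncard_coe_finset]
      congr 1
      ext k
      rw [Finset.coe_filter, Set.mem_ofPred_eq, Set.mem_ofPred_eq, Finset.mem_range, P_eq hb, P_eq hb]

end Pool.Agent.Results.MP_9b2bac_nt.AnalyticPoisson
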