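import Mathlib
import Pool.Agent.K9h18.EX.Lg
import Pool.Agent.K9h18.EX.Cor
import Pool.Agent.W66.LU

set_option autoImplicit false

/-!
# Mersenne numbers perturbed by a random analytic function of `1 / p`: the extreme gaps

The heuristic of Lenstra, Pomerance and Wagstaff predicts that the exponents of Mersenne primes are
distributed like a Poisson process with density `(e ^ γ / log 2) log p / p`.  On the scale of `log p`
the gaps of such a process are like independent exponential variables with parameter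
`κ = e ^ γ / log 2`, and the almost sure size of the largest and of the smallest gaps is governed by
the Borel-Cantelli lemmas: for a nondecreasing `φ`, `κ` times the `k`-th gap exceeds `φ k` infinitely
often if and only if `Σ e ^ (- φ k)` diverges; for a nonincreasing `ψ ≥ 0` the `k`-th gap is smaller than
`ψ k` infinitely often if and only if `Σ ψ k` diverges.

For a sequence `c` of real numbers in `(0, 1]` put `G z = Σ c_j z ^ j`.  For a prime `p` let
`W p` be the `p`-rough part (the product, with multiplicity, of the prime factors larger than `p`) of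
`A p - ⌊2 ^ (e p) G (1 / p)⌋`, where `A p` and `e p` are given, with `A p ≤ 2 ^ p`,
`2 ^ (p - 2) + 3 * 2 ^ (e p) ≤ A p` and `(3 / 4 + η) p ≤ e p` for large `p`.  With `A p = 2 ^ p - 1` and
`G = 0` it is the Mersenne number `2 ^ p - 1`; with `A p = 2 ^ p - 1` and `e p = p - 3 - ⌊δ p⌋`, where
`δ < 1/4`, the leading `⌊δ p⌋ + 2` binary digits of the integer are ones, as for `2 ^ p - 1`.

We prove that both dichotomies hold for almost every `G` (independent uniformly distributed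
coefficients), for the exponents `p` for which `W p` is prime.
-/

namespace Pool.Agent.Results.MP_9b2bac_nt.ExtremeGaps

open Filter Topology MeasureTheory

/-- The product, with multiplicity, of the prime factors of `m` that are larger than `p`. -/
def roughPart (p m : ℕ) : ℕ := (m.primeFactorsList.filter (fun r => p < r)).prod

/-- The `p`-rough part of `A p - ⌊2 ^ (e p) G (1 / p)⌋`, where `G z = Σ c_j z ^ j`. -/
noncomputable def W (e A : ℕ → ℕ) (c : ℕ → ℝ) (p : ℕ) : ℕ :=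
  roughPart p (A p - ⌊2 ^ (e p) * ∑' j : ℕ, c j / (p : ℝ) ^ j⌋₊)

open Classical in
/-- The sum of `log p / p` over the primes `p ≤ n` in the set `S`. -/
noncomputable def V (S : Set ℕ) (n : ℕ) : ℝ :=
  ∑ p ∈ (Finset.range (n + 1)).filter (fun p => p.Prime ∧ p ∈ S), Real.log p / p

/-- The `k`-th (from `k = 0`) prime `p` in `S` for which `W e A c p` is prime. -/
noncomputable def P (e A : ℕ → ℕ) (c : ℕ → ℝ) (S : Set ℕ) (k : ℕ) : ℕ :=
  Nat.nth (fun p => p.Prime ∧ p ∈ S ∧ (W e A c p).Prime) k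

/-- The constant of the law. -/
noncomputable def κ : ℝ := Real.exp Real.eulerMascheroniConstant / Real.log 2

/-- The distribution of a sequence of independent random variables, uniform on `(0, 1]`. -/
noncomputable def μ : Measure (ℕ → ℝ) :=
  Measure.infinitePi fun _ : ℕ => (volume.restrict (Set.Ioc 0 1) : Measure ℝ)

lemma V_eq (S : Set ℕ) (n : ℕ) : V S n = Pool.Agent.TH888.R.VS S n := by
  classical
  unfold V Pool.Agent.TH888.R.VS
  rw [Finset.sum_filter]
  refine Finset.sum_congr rfl fun p _ => ?_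
  by_cases h : p.Prime ∧ p ∈ S
  · rw [if_pos h, if_pos ⟨h.2, h.1⟩]
    rfl
  · rw [if_neg h, if_neg fun h1 => h ⟨h1.2, h1.1⟩]

lemma W_mersenne (e : ℕ → ℕ) {p : ℕ} (hp : p.Prime) :
    W e (fun p => 2 ^ p - 1) (fun _ => 0) p = 2 ^ p - 1 := by
  have h1 : W e (fun p => 2 ^ p - 1) (fun _ => 0) p = Pool.Agent.H305R2.roughPart p
      (2 ^ p - 1 - ⌊(2 : ℝ) ^ (e p) * ∑' j : ℕ, 0 / (p : ℝ) ^ j⌋₊) := rfl
  rw [h1]
  simp only [zero_div, tsum_zero, mul_zero, Nat.floor_zero, Nat.sub_zero]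
  exact Pool.Agent.W66L.rough_mersenne hp

/-- the exponents, modified off the primes -/
def e' (e : ℕ → ℕ) (p : ℕ) : ℕ := if p.Prime then e p else p - 3

/-- the integers, modified off the primes -/
def A' (A : ℕ → ℕ) (p : ℕ) : ℕ := if p.Prime then A p else 2 ^ p

lemma md {η : ℝ} {e A : ℕ → ℕ} (hη : 0 < η) (he : ∀ p : ℕ, p.Prime → e p ≤ p)
    (hA : ∃ p₀ : ℕ, ∀ p : ℕ, p₀ ≤ p → p.Prime →
      (3 / 4 + η) * p ≤ e p ∧ 2 ^ (p - 2) + 3 * 2 ^ (e p) ≤ A p ∧ A p ≤ 2 ^ p) :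
    Pool.Agent.K9h18.AP.Md (min (η / 2) (1 / 16)) (e' e) (A' A) := by
  obtain ⟨p₀, hp₀⟩ := hA
  have h1 : min (η / 2) (1 / 16) ≤ η / 2 := min_le_left _ _
  have h2 : min (η / 2) (1 / 16) ≤ 1 / 16 := min_le_right _ _
  refine ⟨lt_min (by positivity) (by norm_num), by linarith, fun p => ?_, ⟨p₀ + 24, fun p hp => ?_⟩,
    ⟨p₀ + 24, fun p hp => ?_⟩, ⟨p₀, fun p hp => ?_⟩⟩
  · unfold e'
    split_ifs with h
    · exact he p h
    · omega
  · have h24 : (24 : ℝ) ≤ p := by exact_mod_cast (by omega : 24 ≤ p)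
    unfold e'
    split_ifs with h
    · refine le_trans ?_ (hp₀ p (by omega) h).1
      apply mul_le_mul_of_nonneg_right _ (by linarith)
      linarith
    · rw [Nat.cast_sub (by omega)]
      push_cast
      have : (3 / 4 + 2 * min (η / 2) (1 / 16)) * (p : ℝ) ≤ 7 / 8 * p :=
        mul_le_mul_of_nonneg_right (by linarith) (by linarith)
      linarith
  · unfold e' A'
    split_ifs with h
    · exact (hp₀ p (by omega) h).2.1
    · obtain ⟨k, rfl⟩ := Nat.exists_eq_add_of_le (show 3 ≤ p by omega)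
      have e1 : 3 + k - 2 = k + 1 := by omega
      have e2 : 3 + k - 3 = k := by omega
      rw [e1, e2, pow_succ, pow_add]
      have := Nat.one_le_two_pow (n := k)
      omega
  · unfold A'
    split_ifs with h
    · exact (hp₀ p (by omega) h).2.2
    · exact le_rfl

lemma W_eq {e A : ℕ → ℕ} {c : ℕ → ℝ} (hc : Pool.Agent.K9h18.AP.Bx c) {p : ℕ} (hp : p.Prime) :
    W e A c p = Pool.Agent.H305R2.roughPart p (Pool.Agent.K9h18.AP.nn (e' e) (A' A) c p) := by
  unfold Pool.Agent.K9h18.AP.nn e' A'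
  rw [if_pos hp, if_pos hp, Pool.Agent.K9h18.AP.yy_box hp.two_le hc]
  have h1 : ∑' j : ℕ, c j * (1 / (p : ℝ)) ^ j = ∑' j : ℕ, c j / (p : ℝ) ^ j :=
    tsum_congr fun j => by rw [one_div, inv_pow, div_eq_mul_inv]
  rw [h1]
  rfl

lemma Ev_eq {e A : ℕ → ℕ} {c : ℕ → ℝ} (hc : Pool.Agent.K9h18.AP.Bx c) (S : Set ℕ) (p : ℕ) :
    (p.Prime ∧ p ∈ S ∧ (W e A c p).Prime) ↔
      Pool.Agent.K9h18.HS.Ev (Pool.Agent.K9h18.AP.nn (e' e) (A' A) c) S p := by
  unfold Pool.Agent.K9h18.HS.Ev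
  refine and_congr_right fun hp => ?_
  rw [W_eq hc hp]

lemma P_eq {e A : ℕ → ℕ} {c : ℕ → ℝ} (hc : Pool.Agent.K9h18.AP.Bx c) (S : Set ℕ) (k : ℕ) :
    P e A c S k = Nat.nth (Pool.Agent.K9h18.HS.Ev (Pool.Agent.K9h18.AP.nn (e' e) (A' A) c) S) k := by
  unfold P
  congr 1
  ext p
  exact Ev_eq hc S p

lemma V_gap {e A : ℕ → ℕ} {c : ℕ → ℝ} (hc : Pool.Agent.K9h18.AP.Bx c) (S : Set ℕ) (k : ℕ) :
    V S (P e A c S (k + 1)) - V S (P e A c S k) =
      Pool.Agent.K9h18.EX.xx (Pool.Agent.K9h18.AP.nn (e' e) (A' A) c) S (k + 1) -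
        Pool.Agent.K9h18.EX.xx (Pool.Agent.K9h18.AP.nn (e' e) (A' A) c) S k := by
  unfold Pool.Agent.K9h18.EX.xx
  rw [V_eq, V_eq, P_eq hc, P_eq hc]

lemma log_gap {e A : ℕ → ℕ} {c : ℕ → ℝ} (hc : Pool.Agent.K9h18.AP.Bx c)
    (hG : Pool.Agent.K9h18.EX.Good (Pool.Agent.K9h18.AP.nn (e' e) (A' A) c) Set.univ) (k : ℕ) :
    Real.log ((P e A c Set.univ (k + 1) : ℝ) / P e A c Set.univ k) =
      Pool.Agent.K9h18.EX.lp (Pool.Agent.K9h18.AP.nn (e' e) (A' A) c) (k + 1) -
        Pool.Agent.K9h18.EX.lp (Pool.Agent.K9h18.AP.nn (e' e) (A' A) c) k := by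
  have h1 := (Pool.Agent.K9h18.EX.xx_mem hG k).1.pos
  have h2 := (Pool.Agent.K9h18.EX.xx_mem hG (k + 1)).1.pos
  unfold Pool.Agent.K9h18.EX.lp
  rw [P_eq hc, P_eq hc, Real.log_div (by exact_mod_cast h2.ne') (by exact_mod_cast h1.ne')]

/-- **The extreme gaps.** With `A p = 2 ^ p - 1` and `G = 0` the values are the Mersenne numbers.  For
every set `S` of primes of infinite weight, on the scale of the weight, and for the set of all primes
on the scale of the logarithm: `κ` times the `k`-th gap is larger than `φ k` for infinitely many `k`,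
for almost every `G`, if `Σ exp (- φ k)` diverges, and for finitely many `k`, for almost every `G`, if the
sum converges (`φ` nondecreasing); the `k`-th gap is smaller than `ψ k` for infinitely many `k` if
`Σ ψ k` diverges, and for finitely many `k` if it converges (`ψ` nonincreasing and nonnegative).  In
particular for almost every `G` the largest ratios `P (k + 1) / P k` of consecutive exponents are
`k ^ (1 / κ + o(1))`, and the smallest ones are `1 + k ^ (- 1 + o(1))`. -/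
theorem result :
    (∀ (e : ℕ → ℕ) (p : ℕ), p.Prime → W e (fun p => 2 ^ p - 1) (fun _ => 0) p = 2 ^ p - 1) ∧
    ∀ (η : ℝ) (e A : ℕ → ℕ), 0 < η → (∀ p : ℕ, p.Prime → e p ≤ p) →
      (∃ p₀ : ℕ, ∀ p : ℕ, p₀ ≤ p → p.Prime →
        (3 / 4 + η) * p ≤ e p ∧ 2 ^ (p - 2) + 3 * 2 ^ (e p) ≤ A p ∧ A p ≤ 2 ^ p) →
      (∀ S : Set ℕ, Tendsto (V S) atTop atTop →
        (∀ᵐ c ∂μ, {p : ℕ | p.Prime ∧ p ∈ S ∧ (W e A c p).Prime}.Infinite) ∧
        (∀ φ : ℕ → ℝ, Monotone φ →
          ((Summable fun k => Real.exp (-φ k)) → ∀ᵐ c ∂μ, ∀ᶠ k : ℕ in atTop,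
            κ * (V S (P e A c S (k + 1)) - V S (P e A c S k)) < φ k) ∧
          ((¬ Summable fun k => Real.exp (-φ k)) → ∀ᵐ c ∂μ, ∃ᶠ k : ℕ in atTop,
            φ k < κ * (V S (P e A c S (k + 1)) - V S (P e A c S k)))) ∧
        (∀ ψ : ℕ → ℝ, Antitone ψ → (∀ k, 0 ≤ ψ k) →
          (Summable ψ → ∀ᵐ c ∂μ, ∀ᶠ k : ℕ in atTop,
            ψ k < V S (P e A c S (k + 1)) - V S (P e A c S k)) ∧
          (¬ Summable ψ → ∀ᵐ c ∂μ, ∃ᶠ k : ℕ in atTop,
            V S (P e A c S (k + 1)) - V S (P e A c S k) < ψ k))) ∧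
      (∀ φ : ℕ → ℝ, Monotone φ →
        ((Summable fun k => Real.exp (-φ k)) → ∀ᵐ c ∂μ, ∀ᶠ k : ℕ in atTop,
          κ * Real.log ((P e A c Set.univ (k + 1) : ℝ) / P e A c Set.univ k) < φ k) ∧
        ((¬ Summable fun k => Real.exp (-φ k)) → ∀ᵐ c ∂μ, ∃ᶠ k : ℕ in atTop,
          φ k < κ * Real.log ((P e A c Set.univ (k + 1) : ℝ) / P e A c Set.univ k))) ∧
      (∀ ψ : ℕ → ℝ, Antitone ψ → (∀ k, 0 ≤ ψ k) →
        (Summable ψ → ∀ᵐ c ∂μ, ∀ᶠ k : ℕ in atTop,
          ψ k < Real.log ((P e A c Set.univ (k + 1) : ℝ) / P e A c Set.univ k)) ∧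
        (¬ Summable ψ → ∀ᵐ c ∂μ, ∃ᶠ k : ℕ in atTop,
          Real.log ((P e A c Set.univ (k + 1) : ℝ) / P e A c Set.univ k) < ψ k)) ∧
      ∀ᵐ c ∂μ,
        limsup (fun k : ℕ => Real.log ((P e A c Set.univ (k + 1) : ℝ) / P e A c Set.univ k) /
          Real.log k) atTop = 1 / κ ∧
        liminf (fun k : ℕ => Real.log (Real.log ((P e A c Set.univ (k + 1) : ℝ) /
          P e A c Set.univ k)) / Real.log k) atTop = -1 := by
  classical
  refine ⟨fun e p hp => W_mersenne e hp, fun η e A hη he hA => ?_⟩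
  have hM := md hη he hA
  obtain ⟨m, κ', P₀, K, hD⟩ := Pool.Agent.K9h18.EX.exists_dat Pool.Agent.N455.OW.pv hM
  have hV : ∀ S, V S = Pool.Agent.TH888.R.VS S := fun S => funext fun n => V_eq S n
  have hκ : κ = Pool.Agent.K9h18.HS.kc := rfl
  have hμ : μ = Pool.Agent.K9h18.AP.muI := rfl
  have hbox : ∀ᵐ c ∂μ, Pool.Agent.K9h18.AP.Bx c := Pool.Agent.K9h18.AP.box_Bx
  have hgood : ∀ S : Set ℕ, Tendsto (Pool.Agent.TH888.R.VS S) atTop atTop →
      ∀ᵐ c ∂μ, Pool.Agent.K9h18.EX.Good (Pool.Agent.K9h18.AP.nn (e' e) (A' A) c) S := fun S hS => by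
    filter_upwards [Pool.Agent.K9h18.AP.ptA Pool.Agent.N455.OW.pv hM S] with c hc
    exact Pool.Agent.K9h18.EX.good hS hc
  have hup := hM.up
  have hU := Pool.Agent.TH888.R.VS_univ_tendsto
  have hLC : ∀ φ : ℕ → ℝ, Monotone φ → (Summable fun k => Real.exp (-φ k)) → ∀ᵐ c ∂μ, ∀ᶠ k : ℕ in atTop,
      κ * Real.log ((P e A c Set.univ (k + 1) : ℝ) / P e A c Set.univ k) < φ k := by
    intro φ hφ hs
    filter_upwards [hbox, hgood _ hU, Pool.Agent.K9h18.EX.large_conv_log hD (hgood _ hU) hφ hs] with c hb hg hc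
    filter_upwards [hc] with k hk
    rw [log_gap hb hg, hκ]
    exact hk
  have hLD : ∀ φ : ℕ → ℝ, Monotone φ → (¬ Summable fun k => Real.exp (-φ k)) → ∀ᵐ c ∂μ, ∃ᶠ k : ℕ in atTop,
      φ k < κ * Real.log ((P e A c Set.univ (k + 1) : ℝ) / P e A c Set.univ k) := by
    intro φ hφ hs
    filter_upwards [hbox, hgood _ hU, Pool.Agent.K9h18.EX.large_div_log hD hup (hgood _ hU) hφ hs] with c hb hg hc
    refine hc.mono fun k hk => ?_
    rw [log_gap hb hg, hκ]
    exact hk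
  have hSC : ∀ ψ : ℕ → ℝ, Antitone ψ → Summable ψ → ∀ᵐ c ∂μ, ∀ᶠ k : ℕ in atTop,
      ψ k < Real.log ((P e A c Set.univ (k + 1) : ℝ) / P e A c Set.univ k) := by
    intro ψ hψ hs
    filter_upwards [hbox, hgood _ hU, Pool.Agent.K9h18.EX.small_conv_log hD (hgood _ hU) hψ hs] with c hb hg hc
    filter_upwards [hc] with k hk
    rw [log_gap hb hg]
    exact hk
  have hSD : ∀ ψ : ℕ → ℝ, Antitone ψ → (∀ k, 0 ≤ ψ k) → ¬ Summable ψ → ∀ᵐ c ∂μ, ∃ᶠ k : ℕ in atTop,
      Real.log ((P e A c Set.univ (k + 1) : ℝ) / P e A c Set.univ k) < ψ k := by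
    intro ψ hψ h0 hs
    filter_upwards [hbox, hgood _ hU, Pool.Agent.K9h18.EX.small_div_log hD (hgood _ hU) hψ h0 hs] with c hb hg hc
    refine hc.mono fun k hk => ?_
    rw [log_gap hb hg]
    exact hk
  refine ⟨fun S hS => ⟨?_, fun φ hφ => ⟨fun hs => ?_, fun hs => ?_⟩, fun ψ hψ h0 => ⟨fun hs => ?_, fun hs => ?_⟩⟩,
    fun φ hφ => ⟨hLC φ hφ, hLD φ hφ⟩, fun ψ hψ h0 => ⟨hSC ψ hψ, hSD ψ hψ h0⟩, ?_⟩
  · rw [hV] at hS
    filter_upwards [hbox, hgood S hS] with c hb hc
    have h2 : {p : ℕ | p.Prime ∧ p ∈ S ∧ (W e A c p).Prime} =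
        Set.ofPred (Pool.Agent.K9h18.HS.Ev (Pool.Agent.K9h18.AP.nn (e' e) (A' A) c) S) := by
      ext p
      exact Ev_eq hb S p
    rw [h2]
    exact hc.inf
  · rw [hV] at hS
    filter_upwards [hbox, Pool.Agent.K9h18.EX.large_conv hD hS (hgood S hS) hφ hs] with c hb hc
    filter_upwards [hc] with k hk
    rw [V_gap hb, hκ]
    exact hk
  · rw [hV] at hS
    filter_upwards [hbox, Pool.Agent.K9h18.EX.large_div hD hup hS (hgood S hS) hφ hs] with c hb hc
    refine hc.mono fun k hk => ?_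
    rw [V_gap hb, hκ]
    exact hk
  · rw [hV] at hS
    filter_upwards [hbox, Pool.Agent.K9h18.EX.small_conv hD hS (hgood S hS) hψ hs] with c hb hc
    filter_upwards [hc] with k hk
    rw [V_gap hb]
    exact hk
  · rw [hV] at hS
    filter_upwards [hbox, Pool.Agent.K9h18.EX.small_div hD hS (hgood S hS) hψ h0 hs] with c hb hc
    refine hc.mono fun k hk => ?_
    rw [V_gap hb]
    exact hk
  · have hκ0 : 0 < κ := by
      rw [hκ]
      exact Pool.Agent.K9h18.HS.kc_pos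
    have h1 : ∀ᵐ c ∂μ, ∀ n : ℕ, ∀ᶠ k : ℕ in atTop,
        κ * Real.log ((P e A c Set.univ (k + 1) : ℝ) / P e A c Set.univ k) <
          (1 + 1 / ((n : ℝ) + 1)) * Real.log ((k : ℝ) + 1) := by
      rw [ae_all_iff]
      intro n
      refine hLC (fun k => (1 + 1 / ((n : ℝ) + 1)) * Real.log ((k : ℝ) + 1)) (fun a b hab => ?_)
        (Pool.Agent.K9h18.EX.sum_pow_exp n)
      have h2 : Real.log ((a : ℝ) + 1) ≤ Real.log ((b : ℝ) + 1) :=
        Real.log_le_log (by positivity) (by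
          have : (a : ℝ) ≤ b := by exact_mod_cast hab
          linarith)
      exact mul_le_mul_of_nonneg_left h2 (by positivity)
    have h2 := hLD (fun k => Real.log ((k : ℝ) + 1)) (fun a b hab => by
      apply Real.log_le_log (by positivity)
      have : (a : ℝ) ≤ b := by exact_mod_cast hab
      linarith) (by
      intro h
      apply Pool.Agent.K9h18.EX.not_sum_one
      refine h.congr fun k => ?_
      rw [Real.exp_neg, Real.exp_log (by positivity), one_div])
    have h3 : ∀ᵐ c ∂μ, ∀ n : ℕ, ∀ᶠ k : ℕ in atTop,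
        Real.exp (-((1 + 1 / ((n : ℝ) + 1)) * Real.log ((k : ℝ) + 1))) <
          Real.log ((P e A c Set.univ (k + 1) : ℝ) / P e A c Set.univ k) := by
      rw [ae_all_iff]
      intro n
      refine hSC (fun k => Real.exp (-((1 + 1 / ((n : ℝ) + 1)) * Real.log ((k : ℝ) + 1)))) (fun a b hab => ?_)
        (Pool.Agent.K9h18.EX.sum_pow_exp n)
      have h2 : Real.log ((a : ℝ) + 1) ≤ Real.log ((b : ℝ) + 1) :=
        Real.log_le_log (by positivity) (by
          have : (a : ℝ) ≤ b := by exact_mod_cast hab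
          linarith)
      apply Real.exp_le_exp.2
      have := mul_le_mul_of_nonneg_left h2 (show 0 ≤ 1 + 1 / ((n : ℝ) + 1) by positivity)
      linarith
    have h4 := hSD (fun k => 1 / ((k : ℝ) + 1)) (fun a b hab => by
      have : (a : ℝ) ≤ b := by exact_mod_cast hab
      simp only
      gcongr) (fun k => by positivity) Pool.Agent.K9h18.EX.not_sum_one
    filter_upwards [hbox, hgood _ hU, h1, h2, h3, h4] with c hb hg g1 g2 g3 g4
    have hpos : ∀ k, 0 < Real.log ((P e A c Set.univ (k + 1) : ℝ) / P e A c Set.univ k) := by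
      intro k
      rw [P_eq hb, P_eq hb]
      have h5 := (Pool.Agent.K9h18.EX.xx_mem hg k).1.pos
      have h6 := Nat.nth_strictMono hg.inf (Nat.lt_succ_self k)
      apply Real.log_pos
      rw [one_lt_div (by exact_mod_cast h5)]
      exact_mod_cast h6
    exact ⟨Pool.Agent.K9h18.EX.limsup_law hκ0 (fun k => (hpos k).le) g1 g2,
      Pool.Agent.K9h18.EX.liminf_law hpos g3 g4⟩

end Pool.Agent.Results.MP_9b2bac_nt.ExtremeGaps
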