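import Mathlib
import Pool.Agent.K9h18.HS.DigFl

set_option autoImplicit false

/-!
# The Lenstra-Pomerance-Wagstaff law with the leading digits of the Mersenne numbers

Let `0 ≤ δ < 1/4`.  For a prime `p` put `e p = p - 1 - ⌊δ p⌋`, and let `A p` be any integer with
`2 ^ (p - 1) ≤ A p` and `A p + 2 ^ (e p) ≤ 2 ^ p`.  For `0 < β ≤ 1` let `W A β p` be the `p`-rough
part (the product, with multiplicity, of the prime factors larger than `p`) of
`A p + ⌈β * 2 ^ (e p)⌉ - 1`.  When `2 ^ (e p)` divides `A p` this is the integer with `p` binary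
digits whose first `1 + ⌊δ p⌋` digits are those of `A p`, an arbitrary prescribed block, and whose
last `e p` digits are the first `e p` binary digits of `β`.  With `A p = 2 ^ p - 2 ^ (e p)` the
prescribed digits are all equal to `1`, as in the Mersenne number, and for `β = 1` we get the
Mersenne number `2 ^ p - 1` itself.  For a set `S` let `M S β n` be the number of primes `p ≤ n` in
`S` with `W A β p` prime, and let `V S n` be the sum of `log p / p` over the primes `p ≤ n` in `S`.
We prove that for every such `A`, every set `S` and almost every `β` in `(0, 1]` one has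
`M S β n = (e ^ γ / log 2) V S n + O(V ^ (1/2) (log V) ^ 2)` with `V = V S n`, if `V S n` is
unbounded, and that otherwise there are only finitely many such primes `p` in `S`.  For the set of
all primes `V n = log n + O(1)` by the theorem of Mertens.
-/

namespace Pool.Agent.Results.MP_9b2bac_nt.LeadingDigits

open Filter Topology MeasureTheory Asymptotics

/-- The product, with multiplicity, of the prime factors of `m` that are larger than `p`. -/
def roughPart (p m : ℕ) : ℕ := (m.primeFactorsList.filter (fun r => p < r)).prod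

/-- The number of digits that are not prescribed. -/
noncomputable def e (δ : ℝ) (p : ℕ) : ℕ := p - 1 - ⌊δ * p⌋₊

/-- The `p`-rough part of `A p + ⌈β * 2 ^ (e δ p)⌉ - 1`. -/
noncomputable def W (δ : ℝ) (A : ℕ → ℕ) (β : ℝ) (p : ℕ) : ℕ :=
  roughPart p (A p + (⌈β * 2 ^ (e δ p)⌉₊ - 1))

open Classical in
/-- The number of primes `p ≤ n` in the set `S` for which `W δ A β p` is prime. -/
noncomputable def M (δ : ℝ) (A : ℕ → ℕ) (S : Set ℕ) (β : ℝ) (n : ℕ) : ℕ :=
  ((Finset.range (n + 1)).filter (fun p => p.Prime ∧ p ∈ S ∧ (W δ A β p).Prime)).card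

open Classical in
/-- The sum of `log p / p` over the primes `p ≤ n` in the set `S`. -/
noncomputable def V (S : Set ℕ) (n : ℕ) : ℝ :=
  ∑ p ∈ (Finset.range (n + 1)).filter (fun p => p.Prime ∧ p ∈ S), Real.log p / p

lemma V_eq (S : Set ℕ) (n : ℕ) : V S n = Pool.Agent.TH888.R.VS S n := by
  classical
  unfold V Pool.Agent.TH888.R.VS
  rw [Finset.sum_filter]
  refine Finset.sum_congr rfl fun p _ => ?_
  by_cases h : p.Prime ∧ p ∈ S
  · rw [if_pos h, if_pos ⟨h.2, h.1⟩]
    rfl
  · rw [if_neg h, if_neg fun h1 => h ⟨h1.2, h1.1⟩]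

lemma M_eq (δ : ℝ) (A : ℕ → ℕ) (S : Set ℕ) (β : ℝ) (n : ℕ) :
    M δ A S β n = Pool.Agent.TH888.R.cS S
      (fun p => A p + (⌈β * 2 ^ (Pool.Agent.K9h18.HS.ef δ p)⌉₊ - 1)) n := by
  classical
  unfold M Pool.Agent.TH888.R.cS
  rfl

/-- **The Lenstra-Pomerance-Wagstaff law for all prescribed leading digits, almost every `β` and every
set of primes.** -/
theorem result (δ : ℝ) (hδ0 : 0 ≤ δ) (hδ : δ < 1 / 4) (A : ℕ → ℕ)
    (hA : ∀ p : ℕ, p.Prime → 2 ^ (p - 1) ≤ A p ∧ A p + 2 ^ (e δ p) ≤ 2 ^ p) (S : Set ℕ) :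
    ∀ᵐ β : ℝ, 0 < β → β ≤ 1 →
      (Tendsto (V S) atTop atTop →
        (fun n : ℕ => (M δ A S β n : ℝ) -
          Real.exp Real.eulerMascheroniConstant / Real.log 2 * V S n) =O[atTop]
        (fun n : ℕ => Real.sqrt (V S n) * (Real.log (V S n)) ^ 2)) ∧
      (¬ Tendsto (V S) atTop atTop →
        {p : ℕ | p.Prime ∧ p ∈ S ∧ (W δ A β p).Prime}.Finite) := by
  have hV : ∀ S, V S = Pool.Agent.TH888.R.VS S := fun S => funext fun n => V_eq S n
  rw [hV]
  filter_upwards [Pool.Agent.K9h18.HS.law_dig hδ0 hδ hA S] with β hβ h0 h1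
  refine ⟨fun hS => ?_, fun hn => (hβ h0 h1).fin hn⟩
  obtain ⟨B, hB, h⟩ := (hβ h0 h1).law hS
  simp only [M_eq]
  exact Pool.Agent.K9h18.HS.bigO_setR hB hS h

end Pool.Agent.Results.MP_9b2bac_nt.LeadingDigits
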