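import Mathlib
import Pool.Agent.K9h18.HS.Asm

set_option autoImplicit false

/-!
# Mersenne exponents in a thin set of primes: Poisson statistics with prescribed leading digits

The heuristic of Lenstra, Pomerance and Wagstaff predicts that the exponents of Mersenne primes are
distributed like a Poisson process with density `(e ^ γ / log 2) log p / p`.  Let `0 ≤ δ < 1/4`.  For
a prime `p` put `e p = p - 1 - ⌊δ p⌋`, and let `A p` be any integer with `2 ^ (p - 1) ≤ A p` and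
`A p + 2 ^ (e p) ≤ 2 ^ p`.  For `0 < β ≤ 1` let `W A β p` be the `p`-rough part (the product, with
multiplicity, of the prime factors larger than `p`) of `A p + ⌈β * 2 ^ (e p)⌉ - 1`: the leading digits
of this integer with `p` binary digits are prescribed, the others are digits of `β`.  With
`A p = 2 ^ p - 2 ^ (e p)` and `β = 1` it is the Mersenne number `2 ^ p - 1`.

Let `S` be a set of primes, `V n` the sum of `log p / p` over the `p ≤ n` in `S`, and suppose that
`V n → ∞`, that `V (2 n) - V n → 0` and that the gaps between consecutive primes of `S` tend to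
infinity (for example every `h`-th prime, where `h → ∞` slowly).  We prove for almost every `β`, on the
scale of `V`, the full Poisson law: the numbers of `p` in `S` with `W A β p` prime in consecutive
windows `m L < V p ≤ (m + 1) L` are asymptotically independent Poisson variables with mean
`(e ^ γ / log 2) L`, and the gaps `V (p_{k+1}) - V (p_k)` between consecutive such `p` are exponentially
distributed with parameter `e ^ γ / log 2`.
-/

namespace Pool.Agent.Results.MP_9b2bac_nt.ThinPoisson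

open Filter Topology MeasureTheory

/-- The product, with multiplicity, of the prime factors of `m` that are larger than `p`. -/
def roughPart (p m : ℕ) : ℕ := (m.primeFactorsList.filter (fun r => p < r)).prod

/-- The number of digits that are not prescribed. -/
noncomputable def e (δ : ℝ) (p : ℕ) : ℕ := p - 1 - ⌊δ * p⌋₊

/-- The `p`-rough part of `A p + ⌈β * 2 ^ (e δ p)⌉ - 1`. -/
noncomputable def W (δ : ℝ) (A : ℕ → ℕ) (β : ℝ) (p : ℕ) : ℕ :=
  roughPart p (A p + (⌈β * 2 ^ (e δ p)⌉₊ - 1))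

open Classical in
/-- The sum of `log p / p` over the primes `p ≤ n` in the set `S`. -/
noncomputable def V (S : Set ℕ) (n : ℕ) : ℝ :=
  ∑ p ∈ (Finset.range (n + 1)).filter (fun p => p.Prime ∧ p ∈ S), Real.log p / p

/-- The number of the primes `p` in `S` with `m L < V p ≤ (m + 1) L` for which `W δ A β p` is
prime. -/
noncomputable def N (δ : ℝ) (A : ℕ → ℕ) (S : Set ℕ) (L β : ℝ) (m : ℕ) : ℕ :=
  Set.ncard {p : ℕ | p.Prime ∧ p ∈ S ∧ m * L < V S p ∧ V S p ≤ (m + 1) * L ∧ (W δ A β p).Prime}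

/-- The `k`-th (from `k = 0`) prime `p` in `S` for which `W δ A β p` is prime. -/
noncomputable def P (δ : ℝ) (A : ℕ → ℕ) (S : Set ℕ) (β : ℝ) (k : ℕ) : ℕ :=
  Nat.nth (fun p => p.Prime ∧ p ∈ S ∧ (W δ A β p).Prime) k

/-- The constant of the law. -/
noncomputable def κ : ℝ := Real.exp Real.eulerMascheroniConstant / Real.log 2

lemma V_eq (S : Set ℕ) (n : ℕ) : V S n = Pool.Agent.TH888.R.VS S n := by
  classical
  unfold V Pool.Agent.TH888.R.VS
  rw [Finset.sum_filter]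
  refine Finset.sum_congr rfl fun p _ => ?_
  by_cases h : p.Prime ∧ p ∈ S
  · rw [if_pos h, if_pos ⟨h.2, h.1⟩]
    rfl
  · rw [if_neg h, if_neg fun h1 => h ⟨h1.2, h1.1⟩]

lemma W_mersenne (δ : ℝ) {p : ℕ} (hp : p.Prime) :
    W δ (fun p => 2 ^ p - 2 ^ (e δ p)) 1 p = 2 ^ p - 1 := by
  have h1 : ⌈(1 : ℝ) * 2 ^ (e δ p)⌉₊ = 2 ^ (e δ p) := by
    rw [one_mul]
    exact_mod_cast Nat.ceil_natCast (R := ℝ) (2 ^ (e δ p))
  have h2 : 2 ^ (e δ p) ≤ 2 ^ p := Nat.pow_le_pow_right (by norm_num) (by unfold e; omega)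
  have h3 : 1 ≤ 2 ^ (e δ p) := Nat.one_le_two_pow
  have h4 : W δ (fun p => 2 ^ p - 2 ^ (e δ p)) 1 p = Pool.Agent.H305R2.roughPart p
      (2 ^ p - 2 ^ (e δ p) + (⌈(1 : ℝ) * 2 ^ (e δ p)⌉₊ - 1)) := rfl
  have h5 : 2 ^ p - 2 ^ (e δ p) + (2 ^ (e δ p) - 1) = 2 ^ p - 1 := by omega
  rw [h4, h1, h5]
  exact Pool.Agent.W66L.rough_mersenne hp

lemma N_eq {δ : ℝ} {A : ℕ → ℕ} {S : Set ℕ} (hS : Pool.Agent.K9h18.HS.ThinSet S) (L β : ℝ) (m : ℕ) :
    N δ A S L β m = Pool.Agent.K9h18.HS.Nw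
      (fun p => A p + (⌈β * 2 ^ (Pool.Agent.K9h18.HS.ef δ p)⌉₊ - 1)) S L m := by
  classical
  unfold N Pool.Agent.K9h18.HS.Nw
  rw [← Set.ncard_coe_finset]
  congr 1
  ext p
  rw [Finset.coe_filter, Set.mem_ofPred_eq, Set.mem_ofPred_eq, Pool.Agent.K9h18.HS.mem_wn hS, V_eq]
  have h1 : (W δ A β p).Prime ↔ (Pool.Agent.H305R2.roughPart p
      (A p + (⌈β * 2 ^ (Pool.Agent.K9h18.HS.ef δ p)⌉₊ - 1))).Prime := Iff.rfl
  have h2 : ((m : ℝ) + 1) * L = m * L + L := by ring
  rw [h1, h2]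
  tauto

/-- With the prescribed digits equal to one and `β = 1` the values are the Mersenne numbers.  For all
prescribed leading digits and every thin set of primes, for almost every `β` the numbers of prime
values in consecutive windows are asymptotically independent Poisson variables, and the gaps are
exponentially distributed, on the scale of the weights of the heuristic. -/
theorem result (δ : ℝ) (hδ0 : 0 ≤ δ) (hδ : δ < 1 / 4) :
    (∀ p : ℕ, p.Prime → 2 ^ (p - 1) ≤ 2 ^ p - 2 ^ (e δ p) ∧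
      (2 ^ p - 2 ^ (e δ p)) + 2 ^ (e δ p) ≤ 2 ^ p ∧
      W δ (fun p => 2 ^ p - 2 ^ (e δ p)) 1 p = 2 ^ p - 1) ∧
    ∀ A : ℕ → ℕ, (∀ p : ℕ, p.Prime → 2 ^ (p - 1) ≤ A p ∧ A p + 2 ^ (e δ p) ≤ 2 ^ p) →
      ∀ S : Set ℕ, Tendsto (V S) atTop atTop →
      Tendsto (fun n : ℕ => V S (2 * n) - V S n) atTop (𝓝 0) →
      (∀ H : ℕ, ∃ Q : ℕ, ∀ p q : ℕ, Q ≤ p → p.Prime → q.Prime → p ∈ S → q ∈ S → p < q → p + H ≤ q) →
      (∀ L : ℝ, 0 < L → ∀ᵐ β : ℝ, 0 < β → β ≤ 1 → ∀ (r : ℕ) (j : ℕ → ℕ),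
        Tendsto (fun K : ℕ => (Set.ncard {m : ℕ | m < K ∧
          ∀ i ≤ r, N δ A S L β (m + i) = j i} : ℝ) / K) atTop
          (𝓝 (∏ i ∈ Finset.range (r + 1),
            (Real.exp (-(κ * L)) * (κ * L) ^ (j i) / (j i).factorial)))) ∧
      (∀ᵐ β : ℝ, 0 < β → β ≤ 1 →
        {p : ℕ | p.Prime ∧ p ∈ S ∧ (W δ A β p).Prime}.Infinite ∧
        ∀ y : ℝ, 0 < y →
        Tendsto (fun K : ℕ => (Set.ncard {k : ℕ | k < K ∧
          y < V S (P δ A S β (k + 1)) - V S (P δ A S β k)} : ℝ) / K) atTop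
          (𝓝 (Real.exp (-(κ * y))))) := by
  classical
  refine ⟨fun p hp => ?_, fun A hA S hV hthin hgap => ?_⟩
  · have h1 : e δ p + 1 + ⌊δ * p⌋₊ = p :=
      Pool.Agent.K9h18.HS.ef_add hδ0 (by linarith) hp.one_lt.le
    have h2 : 2 ^ (e δ p) ≤ 2 ^ (p - 1) := Nat.pow_le_pow_right (by norm_num) (by omega)
    have h3 : 2 ^ p = 2 ^ (p - 1) + 2 ^ (p - 1) := by
      rw [← two_mul, ← pow_succ']
      congr 1
      omega
    have h4 : 1 ≤ 2 ^ (p - 1) := Nat.one_le_two_pow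
    exact ⟨by omega, by omega, W_mersenne δ hp⟩
  have hVS : V S = Pool.Agent.TH888.R.VS S := funext fun n => V_eq S n
  rw [hVS] at hV hthin ⊢
  have hS : Pool.Agent.K9h18.HS.ThinSet S := ⟨hV, hthin, hgap⟩
  have hκ : κ = Pool.Agent.K9h18.HS.kc := rfl
  refine ⟨fun L hL => ?_, ?_⟩
  · filter_upwards [Pool.Agent.K9h18.HS.thin_law hδ0 hδ hA hS hL] with β hβ h0 h1 r j
    rw [hκ]
    refine (hβ h0 h1 r j).congr fun K => ?_
    congr 2
    rw [← Set.ncard_coe_finset]
    congr 1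
    ext m
    rw [Finset.coe_filter, Set.mem_ofPred_eq, Set.mem_ofPred_eq, Finset.mem_range]
    refine and_congr_right fun _ => ?_
    simp only [N_eq hS, Nat.lt_succ_iff]
  · filter_upwards [Pool.Agent.K9h18.HS.thin_gap hδ0 hδ hA hS,
      Pool.Agent.K9h18.HS.law_dig hδ0 hδ hA S] with β hβ hP h0 h1
    refine ⟨(hP h0 h1).inf Pool.Agent.K9h18.HS.kc_pos hV, fun y hy => ?_⟩
    rw [hκ]
    refine (hβ h0 h1 y hy).congr fun K => ?_
    congr 2
    rw [← Set.ncard_coe_finset]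
    congr 1
    ext m
    rw [Finset.coe_filter, Set.mem_ofPred_eq, Set.mem_ofPred_eq, Finset.mem_range]
    exact Iff.rfl

end Pool.Agent.Results.MP_9b2bac_nt.ThinPoisson
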